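import Pool.Agent.H64.FTM.Targets

/-! module KMX of MP_fd35e1_ag (board ftm): symmetrizations over `b + 1` places -/

set_option autoImplicit false
set_option linter.unusedSectionVars false

open Matrix Pool.Agent.H64.CC Pool.Agent.H2.NL Pool.Agent.H2.KM Pool.Agent.H64.EV Pool.Agent.H64.EK
open Pool.Agent.H64.FTM

namespace Pool.Agent.H38.FTM

section words

variable {K : Type} [Field K] {I : Type} [Fintype I]

lemma sum_cons (n : ℕ) (f : List I → K) :
    ∑ v : List.Vector I (n + 1), f v.1 = ∑ a, ∑ v : List.Vector I n, f (a :: v.1) := by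
  rw [← Fintype.sum_prod_type' (f := fun (a : I) (v : List.Vector I n) => f (a :: v.1))]
  symm
  refine Fintype.sum_bijective (fun p : I × List.Vector I n => p.1 ::ᵥ p.2) ⟨?_, ?_⟩ _ _ ?_
  · rintro ⟨a, v⟩ ⟨a', v'⟩ h
    have h1 := congrArg List.Vector.head h
    have h2 := congrArg List.Vector.tail h
    simp only [List.Vector.head_cons, List.Vector.tail_cons] at h1 h2
    rw [h1, h2]
  · intro v
    exact ⟨(v.head, v.tail), List.Vector.cons_head_tail v⟩
  · rintro ⟨a, v⟩
    rfl

lemma sum_nil (f : List I → K) : ∑ v : List.Vector I 0, f v.1 = f [] := by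
  rw [Fintype.sum_eq_single (List.Vector.nil : List.Vector I 0)]
  · rfl
  · intro v hv
    exact absurd (List.Vector.eq_nil v) hv

lemma Pr_congr [DecidableEq I] (F : OForm K I) (m : ℕ) : ∀ f f' g g' : List I → K,
    (∀ w, w.length = m → f w = f' w) → (∀ w, w.length = m → g w = g' w) →
    F.Pr m f g = F.Pr m f' g' := by
  induction m with
  | zero =>
    intro f f' g g' h1 h2
    show f [] * g [] = f' [] * g' []
    rw [h1 [] rfl, h2 [] rfl]
  | succ m ih =>
    intro f f' g g' h1 h2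
    show ∑ a, F.c a * F.Pr m (fun l => f (a :: l)) (fun l => g (F.st a :: l)) =
      ∑ a, F.c a * F.Pr m (fun l => f' (a :: l)) (fun l => g' (F.st a :: l))
    refine Finset.sum_congr rfl fun a _ => ?_
    rw [ih _ (fun l => f' (a :: l)) _ (fun l => g' (F.st a :: l))
      (fun w hw => h1 _ (by simp [hw])) (fun w hw => h2 _ (by simp [hw]))]

lemma Pr_smul [DecidableEq I] (F : OForm K I) (c : K) (m : ℕ) : ∀ f g : List I → K,
    F.Pr m (fun w => c * f w) g = c * F.Pr m f g := by
  induction m with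
  | zero =>
    intro f g
    show c * f [] * g [] = c * (f [] * g [])
    ring
  | succ m ih =>
    intro f g
    show ∑ a, F.c a * F.Pr m (fun l => c * f (a :: l)) (fun l => g (F.st a :: l)) =
      c * ∑ a, F.c a * F.Pr m (fun l => f (a :: l)) (fun l => g (F.st a :: l))
    rw [Finset.mul_sum]
    refine Finset.sum_congr rfl fun a _ => ?_
    rw [ih]
    ring

lemma Pr_zero_right' [DecidableEq I] (F : OForm K I) (m : ℕ) : ∀ f g : List I → K,
    (∀ w, w.length = m → g w = 0) → F.Pr m f g = 0 := by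
  induction m with
  | zero =>
    intro f g h
    show f [] * g [] = 0
    rw [h [] rfl, mul_zero]
  | succ m ih =>
    intro f g h
    show ∑ a, F.c a * F.Pr m (fun l => f (a :: l)) (fun l => g (F.st a :: l)) = 0
    refine Finset.sum_eq_zero fun a _ => ?_
    rw [ih _ _ (fun w hw => h _ (by simp [hw])), mul_zero]

lemma Pr_zero_left' [DecidableEq I] (F : OForm K I) (m : ℕ) (f g : List I → K)
    (h : ∀ w, w.length = m → f w = 0) : F.Pr m f g = 0 := by
  rw [Pr_congr F m f (fun w => 0 * f w) g g (fun w hw => by rw [h w hw, mul_zero]) (fun _ _ => rfl),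
    Pr_smul, zero_mul]

lemma Pr_split [DecidableEq I] (F : OForm K I) (m n : ℕ) : ∀ f g : List I → K,
    F.Pr (n + m) f g = ∑ u : List.Vector I n, (u.1.map F.c).prod *
      F.Pr m (fun w => f (u.1 ++ w)) (fun w => g (u.1.map F.st ++ w)) := by
  induction n with
  | zero =>
    intro f g
    rw [sum_nil (fun u : List I => (u.map F.c).prod *
      F.Pr m (fun w => f (u ++ w)) (fun w => g (u.map F.st ++ w))), Nat.zero_add]
    simp
  | succ n ih =>
    intro f g
    rw [sum_cons n (fun u : List I => (u.map F.c).prod *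
      F.Pr m (fun w => f (u ++ w)) (fun w => g (u.map F.st ++ w)))]
    have e : n + 1 + m = (n + m) + 1 := by omega
    rw [e]
    show ∑ a, F.c a * F.Pr (n + m) (fun l => f (a :: l)) (fun l => g (F.st a :: l)) = _
    refine Finset.sum_congr rfl fun a _ => ?_
    rw [ih, Finset.mul_sum]
    refine Finset.sum_congr rfl fun u _ => ?_
    rw [List.map_cons, List.prod_cons, mul_assoc]
    rfl

end words

section two

variable {K : Type} [Field K] {J E : Type} [Fintype J] [DecidableEq J] [Fintype E] [DecidableEq E]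

lemma sum_left (n : ℕ) : ∀ f : List (J ⊕ E) → K,
    (∀ w, w.length = n → ¬ w.all Sum.isLeft = true → f w = 0) →
    ∑ v : List.Vector (J ⊕ E) n, f v.1 = ∑ v : List.Vector J n, f (v.1.map Sum.inl) := by
  induction n with
  | zero =>
    intro f _
    rw [sum_nil, sum_nil (fun v : List J => f (v.map Sum.inl))]
    rfl
  | succ n ih =>
    intro f hf
    rw [sum_cons, sum_cons n (fun v : List J => f (v.map Sum.inl)), Fintype.sum_sum_type]
    have h2 : ∑ e : E, ∑ v : List.Vector (J ⊕ E) n, f (Sum.inr e :: v.1) = 0 :=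
      Finset.sum_eq_zero fun e _ => Finset.sum_eq_zero fun v _ =>
        hf _ (by simp) (by simp)
    rw [h2, add_zero]
    refine Finset.sum_congr rfl fun a _ => ?_
    rw [ih (fun l => f (Sum.inl a :: l)) (fun w hw hl => hf _ (by simp [hw]) (by simpa using hl))]
    rfl

lemma all_left_map (u : List J) : (u.map (Sum.inl : J → J ⊕ E)).all Sum.isLeft = true := by
  simp

lemma map_of_all_left (w : List (J ⊕ E)) (h : w.all Sum.isLeft = true) :
    (w.filterMap Sum.getLeft?).map Sum.inl = w := by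
  induction w with
  | nil => rfl
  | cons a w ih =>
    rw [List.all_cons, Bool.and_eq_true] at h
    rcases a with a | a
    · have e : List.filterMap Sum.getLeft? ((Sum.inl a : J ⊕ E) :: w) =
          a :: List.filterMap Sum.getLeft? w := rfl
      rw [e, List.map_cons, ih h.2]
    · exact absurd h.1 (by simp)

lemma eta_inl (F : OForm K J) (G : OForm K E) (a b : J) :
    (osum F G).η (Sum.inl a) (Sum.inl b) = F.η a b := by
  show (if (Sum.inl b : J ⊕ E) = Sum.inl (F.st a) then F.c a else 0) = if b = F.st a then F.c a else 0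
  by_cases h : b = F.st a
  · rw [if_pos h, if_pos (congrArg Sum.inl h)]
  · rw [if_neg h, if_neg fun h' => h (Sum.inl_injective h')]

lemma eta_inr (F : OForm K J) (G : OForm K E) (a : J) (b : E) :
    (osum F G).η (Sum.inl a) (Sum.inr b) = 0 := by
  show (if (Sum.inr b : J ⊕ E) = Sum.inl (F.st a) then F.c a else 0) = 0
  exact if_neg (by simp)

lemma zip_inl (F : OForm K J) (G : OForm K E) (v u : List J) :
    (List.zipWith (fun a b => (osum F G).η a b) (v.map Sum.inl) (u.map Sum.inl)).prod =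
      (List.zipWith (fun a b => F.η a b) v u).prod := by
  rw [List.zipWith_map]
  simp only [eta_inl]

lemma zip_not (F : OForm K J) (G : OForm K E) (v : List J) : ∀ u : List (J ⊕ E),
    u.length = v.length → ¬ u.all Sum.isLeft = true →
    (List.zipWith (fun a b => (osum F G).η a b) (v.map Sum.inl) u).prod = 0 := by
  induction v with
  | nil =>
    intro u hu hl
    rw [List.length_nil, List.length_eq_zero_iff] at hu
    rw [hu] at hl
    exact absurd rfl hl
  | cons a v ih =>
    intro u hu hl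
    rcases u with _ | ⟨c, u⟩
    · simp at hu
    · rw [List.map_cons, List.zipWith_cons_cons, List.prod_cons]
      rcases c with c | c
      · rw [ih u (by simpa using hu) (by simpa using hl), mul_zero]
      · rw [eta_inr, zero_mul]

lemma selz_inl (z : K) (F : OForm K J) (G : OForm K E) (v : List J) :
    selz z (osum F G).o (v.map Sum.inl) =
      (selz z F.o v).map fun x => (x.1, (Sum.inl x.2.1 : J ⊕ E), x.2.2.map Sum.inl) := by
  induction v with
  | nil => rfl
  | cons b v ih =>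
    show (1, (Sum.inl b : J ⊕ E), v.map Sum.inl) ::
      ((selz z (osum F G).o (v.map Sum.inl)).map fun x =>
        (z * ks K ((osum F G).o (Sum.inl b)) ((osum F G).o x.2.1) * x.1, x.2.1, Sum.inl b :: x.2.2)) = _
    rw [ih, List.map_map]
    show _ = (1, (Sum.inl b : J ⊕ E), v.map Sum.inl) :: (((selz z F.o v).map fun x =>
      (z * ks K (F.o b) (F.o x.2.1) * x.1, x.2.1, b :: x.2.2)).map fun x =>
        (x.1, (Sum.inl x.2.1 : J ⊕ E), x.2.2.map Sum.inl))
    rw [List.map_map]
    rfl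

lemma xp_inl (z : K) (F : OForm K J) (G : OForm K E) (u : List J) : ∀ v : List J,
    xp z (osum F G).o (1 : Matrix (J ⊕ E) (J ⊕ E) K) (u.map Sum.inl) (v.map Sum.inl) =
      xp z F.o (1 : Matrix J J K) u v := by
  induction u with
  | nil =>
    intro v
    rcases v with _ | ⟨b, v⟩ <;> rfl
  | cons a u ih =>
    intro v
    show ((selz z (osum F G).o (v.map Sum.inl)).map fun x =>
      x.1 * (1 : Matrix (J ⊕ E) (J ⊕ E) K) (Sum.inl a) x.2.1 *
        xp z (osum F G).o (1 : Matrix (J ⊕ E) (J ⊕ E) K) (u.map Sum.inl) x.2.2).sum =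
      ((selz z F.o v).map fun x => x.1 * (1 : Matrix J J K) a x.2.1 * xp z F.o 1 u x.2.2).sum
    rw [selz_inl, List.map_map]
    congr 1
    refine List.map_congr_left fun x _ => ?_
    show x.1 * (1 : Matrix (J ⊕ E) (J ⊕ E) K) (Sum.inl a) (Sum.inl x.2.1) *
        xp z (osum F G).o (1 : Matrix (J ⊕ E) (J ⊕ E) K) (u.map Sum.inl) (x.2.2.map Sum.inl) = _
    rw [ih, Matrix.one_apply, Matrix.one_apply]
    simp only [Sum.inl.injEq]

lemma sgw_inl (F : OForm K J) (G : OForm K E) (u : List J) :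
    sgw K (osum F G).o (u.map Sum.inl) = sgw K F.o u := by
  unfold sgw
  rw [List.map_map]
  rfl

/-- words of type `a` start with letters of the first kind -/
lemma ty_left {m a : ℕ} {t : List (J ⊕ E) → K} (ht : Ty m a t) {v w : List (J ⊕ E)}
    (hv : v.length ≤ a) (hl : (v ++ w).length = m) (h : ¬ v.all Sum.isLeft = true) : t (v ++ w) = 0 := by
  by_contra hcon
  obtain ⟨u, v', hu, he⟩ := ht _ hl hcon
  apply h
  have h1 : v = (u.map Sum.inl).take v.length := by
    have h2 := congrArg (List.take v.length) he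
    rw [List.take_left, List.take_append_of_le_length (by simp [hu, hv])] at h2
    exact h2
  rw [h1, List.all_eq_true]
  intro c hc
  have h3 := List.mem_of_mem_take hc
  rw [List.mem_map] at h3
  obtain ⟨d, -, rfl⟩ := h3
  rfl

end two

theorem km0 (hACT : T_ACT) (hPRF : T_PRF) (hTYB : T_TYB) (hPCN : T_PCN) (hPTC : T_PTC) (hSPX : T_SPX)
    (K : Type) [Field K] [CharZero K] (J E : Type) [Fintype J] [DecidableEq J] [Fintype E] [DecidableEq E]
    (F : OForm K J) (G : OForm K E) (A : ℕ → Submodule ℚ (List (J ⊕ E) → K)) (hM : MCal F G A) (z : K)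
    (n : ℕ) (hz : z = 1 ∨ z = -1)
    (hyp : ∀ t ∈ AR A n, ∑ u : List.Vector J n, sgw K F.o u.1 *
      (op F.η n t * Xp z F.o (1 : Matrix J J K) n) u u = 0)
    (k a : ℕ) (X y : (Fin (2 * k) → J ⊕ E) → K) (hX : X ∈ Af A k) (hy : rvf y ∈ Af A k) (hXt : Tyf a X)
    (hyt : Tyf a y) (ha : a ≤ 2 * k) (hna : n ≤ a)
    (hs : ∀ (j : ℕ) (h : j + 1 < 2 * k), j + 2 ≤ n → ∀ w,
      ac (osum F G).o (Equiv.swap ⟨j, Nat.lt_of_succ_lt h⟩ ⟨j + 1, h⟩) X w = z * X w) :
    pr (osum F G) X y = 0 := by
  obtain ⟨X0, hX0, rfl⟩ := hX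
  obtain ⟨t, ht, hty⟩ := hy
  set H : OForm K (J ⊕ E) := osum F G with hH
  have hn : n ≤ 2 * k := hna.trans ha
  have hye : ev (2 * k) (rv t) = y := by
    rw [(hPRF K (J ⊕ E) H (2 * k)).2.2.2 t, hty]
    funext w
    show y (fun i => w i.rev.rev) = y w
    simp only [Fin.rev_rev]
  have hrr : rv (rv t) = t := by
    funext w
    show t w.reverse.reverse = t w
    rw [List.reverse_reverse]
  have hX0t : Ty (2 * k) a X0 := ((hTYB K J E (2 * k) a ha).1 X0).2 hXt
  have hy0t : Ty (2 * k) a (rv t) := ((hTYB K J E (2 * k) a ha).1 (rv t)).2 (by rw [hye]; exact hyt)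
  obtain ⟨z0, hz0, hz0e⟩ := hPCN K (J ⊕ E) H A hM.calculus k n X0 (rv t) hn hX0 (by rw [hrr]; exact ht)
  have hv1 : ∀ v v' : List (J ⊕ E), v.length = n → v'.length = n → ¬ v.all Sum.isLeft = true →
      z0 (v ++ v') = 0 := by
    intro v v' hv hv' hl
    rw [hz0e v v' hv hv']
    exact Pr_zero_left' H _ _ _ fun w hw => ty_left hX0t (by omega) (by simp; omega) hl
  have hv2 : ∀ v v' : List (J ⊕ E), v.length = n → v'.length = n → ¬ v'.all Sum.isLeft = true →
      z0 (v ++ v') = 0 := by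
    intro v v' hv hv' hl
    rw [hz0e v v' hv hv']
    exact Pr_zero_right' H _ _ _ fun w hw => ty_left hy0t (by simp; omega) (by simp; omega)
      (by rwa [List.all_reverse])
  set t0 : List J → K := fun u => z0 (u.map Sum.inl) with ht0
  have ht0A : t0 ∈ AR A n := by
    show ext E t0 ∈ A n
    refine hM.calculus.congr n z0 _ hz0 fun w hw => ?_
    unfold Pool.Agent.H64.FTM.ext
    split_ifs with hl
    · show z0 ((w.filterMap Sum.getLeft?).map Sum.inl) = z0 w
      rw [map_of_all_left w hl]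
    · have e : w = w.take n ++ w.drop n := (List.take_append_drop n w).symm
      by_cases h1 : (w.take n).all Sum.isLeft = true
      · have h2 : ¬ (w.drop n).all Sum.isLeft = true := by
          intro h2
          apply hl
          rw [e, List.all_append, h1, h2]
          rfl
        rw [e]
        exact (hv2 _ _ (by simp; omega) (by simp; omega) h2).symm
      · rw [e]
        exact (hv1 _ _ (by simp; omega) (by simp; omega) h1).symm
  have hhyp := hyp t0 ht0A
  have hev : ∀ t' ∈ A k, ∀ w : List (J ⊕ E), w.length = 2 * k → t' w ≠ 0 → Even (odds H.o w) :=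
    fun t' ht' w hw hne => hM.calculus.even k t' w ht' hw hne
  have hPT := hPTC K (J ⊕ E) H k n X0 (rv t) z0 hn (hev X0 hX0) (by
    intro w hw hne
    have h1 := hev t ht w.reverse (by simp [hw]) hne
    have h2 : odds H.o w.reverse = odds H.o w := by
      unfold odds
      rw [List.filter_reverse, List.length_reverse]
    rwa [h2] at h1) hz0e (Xp z H.o (1 : Matrix (J ⊕ E) (J ⊕ E) K) n)
  -- the left side
  have hop1 : ∀ u u' : List (J ⊕ E), u.length = n → u'.length = n → ¬ u.all Sum.isLeft = true →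
      opw H.η n z0 u u' = 0 := by
    intro u u' hu hu' hl
    unfold opw
    refine Finset.sum_eq_zero fun v _ => ?_
    rw [hv1 u v.1 hu v.2 hl, zero_mul]
  have hop2 : ∀ u u' : List (J ⊕ E), u.length = n → u'.length = n → ¬ u'.all Sum.isLeft = true →
      opw H.η n z0 u u' = 0 := by
    intro u u' hu hu' hl
    unfold opw
    refine Finset.sum_eq_zero fun v _ => ?_
    by_cases hvl : v.1.all Sum.isLeft = true
    · have e : v.1.reverse = (((v.1.filterMap Sum.getLeft?)).reverse).map Sum.inl := by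
        rw [List.map_reverse, map_of_all_left v.1 hvl]
      rw [e, zip_not F G _ u' ?_ hl, mul_zero]
      have h3 := congrArg List.length e
      rw [List.length_map, List.length_reverse, v.2] at h3
      omega
    · rw [hv2 u v.1 hu v.2 hvl, zero_mul]
  have hop3 : ∀ u u' : List J, u.length = n → u'.length = n →
      opw H.η n z0 (u.map Sum.inl) (u'.map Sum.inl) = opw F.η n t0 u u' := by
    intro u u' hu hu'
    unfold opw
    rw [sum_left n (fun v : List (J ⊕ E) => z0 (u.map Sum.inl ++ v) *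
      (List.zipWith (fun a b => H.η a b) v.reverse (u'.map Sum.inl)).prod)
      (fun w hw hl => by rw [hv2 _ w (by simp [hu]) hw hl, zero_mul])]
    refine Finset.sum_congr rfl fun v _ => ?_
    rw [← List.map_reverse, zip_inl, ← List.map_append]
  have hL : ∑ u : List.Vector (J ⊕ E) n, sgw K H.o u.1 *
      (op H.η n z0 * Xp z H.o (1 : Matrix (J ⊕ E) (J ⊕ E) K) n) u u = 0 := by
    have e1 : ∀ u : List.Vector (J ⊕ E) n, sgw K H.o u.1 *
        (op H.η n z0 * Xp z H.o (1 : Matrix (J ⊕ E) (J ⊕ E) K) n) u u =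
        (fun w : List (J ⊕ E) => sgw K H.o w * ∑ v : List.Vector (J ⊕ E) n,
          opw H.η n z0 w v.1 * xp z H.o (1 : Matrix (J ⊕ E) (J ⊕ E) K) v.1 w) u.1 := by
      intro u
      rw [Matrix.mul_apply]
      rfl
    refine (Finset.sum_congr rfl fun u _ => e1 u).trans ?_
    refine (sum_left n (fun w : List (J ⊕ E) => sgw K H.o w * ∑ v : List.Vector (J ⊕ E) n,
          opw H.η n z0 w v.1 * xp z H.o (1 : Matrix (J ⊕ E) (J ⊕ E) K) v.1 w) ?_).trans ?_
    rotate_left
    · rw [← hhyp]
      refine Finset.sum_congr rfl fun u _ => ?_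
      show sgw K H.o (u.1.map Sum.inl) * ∑ v : List.Vector (J ⊕ E) n,
        opw H.η n z0 (u.1.map Sum.inl) v.1 * xp z H.o (1 : Matrix (J ⊕ E) (J ⊕ E) K) v.1
          (u.1.map Sum.inl) = _
      rw [sgw_inl, sum_left n (fun v : List (J ⊕ E) => opw H.η n z0 (u.1.map Sum.inl) v *
        xp z H.o (1 : Matrix (J ⊕ E) (J ⊕ E) K) v (u.1.map Sum.inl))
        (fun w hw hl => by rw [hop2 _ w (by simp) hw hl, zero_mul]), Matrix.mul_apply]
      congr 1
      refine Finset.sum_congr rfl fun v _ => ?_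
      rw [hop3 u.1 v.1 u.2 v.2, xp_inl]
      rfl
    · intro w hw hl
      show sgw K H.o w * ∑ v : List.Vector (J ⊕ E) n,
          opw H.η n z0 w v.1 * xp z H.o (1 : Matrix (J ⊕ E) (J ⊕ E) K) v.1 w = 0
      rw [Finset.sum_eq_zero fun v _ => by rw [hop1 w v.1 hw v.2 hl, zero_mul], mul_zero]
  -- the right side
  have hsw : ∀ j, j + 2 ≤ n → ∀ v w : List (J ⊕ E), v.length = n → w.length = 2 * k - n →
      sw H.o j (fun v => X0 (v ++ w)) v = z * X0 (v ++ w) := by
    intro j hj v w hv hw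
    have h1 : sw H.o j X0 (v ++ w) = sw H.o j (fun v => X0 (v ++ w)) v := by
      obtain ⟨α, a', b', β, hα, hvv⟩ := exists_split j v (by omega)
      rw [hvv, ← hα, sw_append, List.append_assoc, List.cons_append, List.cons_append, sw_append,
        List.append_assoc, List.cons_append, List.cons_append]
    rw [← h1]
    have hlen : (v ++ w).length = 2 * k := by simp; omega
    have h2 := hs j (by omega) hj (fun i => (v ++ w).get (Fin.cast hlen.symm i))
    rw [← (hACT K (J ⊕ E) H.o (2 * k)).2.2.1 j (by omega) X0] at h2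
    unfold ev at h2
    have h3 : List.ofFn (fun i => (v ++ w).get (Fin.cast hlen.symm i)) = v ++ w := by
      apply List.ext_get
      · simp [hlen]
      · intro i h1' h2'
        simp
    rw [h3] at h2
    exact h2
  have hR : ∑ u : List.Vector (J ⊕ E) n, (u.1.map H.c).prod * H.Pr (2 * k - n)
      (fun w => ∑ v : List.Vector (J ⊕ E) n, Xp z H.o (1 : Matrix (J ⊕ E) (J ⊕ E) K) n u v *
        X0 (v.1 ++ w)) (fun w => rv t (u.1.map H.st ++ w)) =
      (n.factorial : K) * pr H (ev (2 * k) X0) y := by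
    rw [← hye, ← (hPRF K (J ⊕ E) H (2 * k)).1]
    have e : 2 * k = n + (2 * k - n) := by omega
    conv_rhs => rw [e, Pr_split, Finset.mul_sum]
    refine Finset.sum_congr rfl fun u _ => ?_
    rw [← mul_assoc, mul_comm (n.factorial : K), mul_assoc]
    congr 1
    rw [← Pr_smul]
    refine Pr_congr H _ _ _ _ _ (fun w hw => ?_) (fun _ _ => rfl)
    exact hSPX K (J ⊕ E) H.o z hz n (fun v => X0 (v ++ w)) (fun j hj v hv => hsw j hj v w hv hw) u.1 u.2
  rw [hL, hR] at hPT
  have hfac : (n.factorial : K) ≠ 0 := Nat.cast_ne_zero.2 (Nat.factorial_ne_zero n)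
  exact (mul_eq_zero.1 hPT.symm).resolve_left hfac

/-- conjugation of the subgroup of the permutations with support in `L` -/
lemma mem_HL {α : Type} [Fintype α] [DecidableEq α] {L : Finset α} {σ : Equiv.Perm α} :
    σ ∈ HL L ↔ ∀ i, i ∉ L → σ i = i := by
  unfold HL
  simp

lemma exists_move {m a n : ℕ} (L : Finset (Fin m)) (hL : L.card = n) (hLa : ∀ i ∈ L, i.1 < a)
    (hna : n ≤ a) (ham : a ≤ m) : ∃ τ : Equiv.Perm (Fin m), (∀ i, i ∈ L ↔ (τ i).1 < n) ∧
      ∀ i : Fin m, (τ i).1 < a ↔ i.1 < a := by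
  classical
  have hc1 : Fintype.card {x : {i : Fin m // i.1 < a} // x.1 ∈ L} = n := by
    rw [← hL, ← Fintype.card_coe]
    refine Fintype.card_congr ⟨fun x => ⟨x.1.1, x.2⟩, fun x => ⟨⟨x.1, hLa x.1 x.2⟩, x.2⟩, ?_, ?_⟩
    · intro x; rfl
    · intro x; rfl
  have hc2 : Fintype.card {x : {i : Fin m // i.1 < a} // x.1.1 < n} = n := by
    have h1 : Fintype.card {x : {i : Fin m // i.1 < a} // x.1.1 < n} = Fintype.card (Fin n) :=
      Fintype.card_congr ⟨fun x => ⟨x.1.1.1, x.2⟩,
        fun x => ⟨⟨⟨x.1, by omega⟩, by show x.1 < a; omega⟩, x.2⟩,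
        fun x => rfl, fun x => rfl⟩
    rw [h1, Fintype.card_fin]
  let e : {x : {i : Fin m // i.1 < a} // x.1 ∈ L} ≃ {x : {i : Fin m // i.1 < a} // x.1.1 < n} :=
    Fintype.equivOfCardEq (hc1.trans hc2.symm)
  let π : Equiv.Perm {i : Fin m // i.1 < a} := e.extendSubtype
  have hτa : ∀ (i : Fin m) (h : i.1 < a), Equiv.Perm.ofSubtype π i = (π ⟨i, h⟩).1 := fun i h =>
    Equiv.Perm.ofSubtype_apply_of_mem π h
  have hτb : ∀ (i : Fin m), ¬ i.1 < a → Equiv.Perm.ofSubtype π i = i := fun i h =>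
    Equiv.Perm.ofSubtype_apply_of_not_mem π h
  refine ⟨Equiv.Perm.ofSubtype π, fun i => ?_, fun i => ?_⟩
  · by_cases h : i.1 < a
    · rw [hτa i h]
      by_cases hi : i ∈ L
      · exact ⟨fun _ => e.extendSubtype_mem ⟨i, h⟩ hi, fun _ => hi⟩
      · exact ⟨fun h' => absurd h' hi, fun h' => absurd h' (e.extendSubtype_not_mem ⟨i, h⟩ hi)⟩
    · rw [hτb i h]
      exact ⟨fun h' => absurd (hLa i h') h, fun h' => absurd (lt_of_lt_of_le h' hna) h⟩
  · by_cases h : i.1 < a
    · rw [hτa i h]
      exact ⟨fun _ => h, fun _ => (π ⟨i, h⟩).2⟩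
    · rw [hτb i h]

lemma chi_mul {K : Type} [Field K] (z : K) (hz : z = 1 ∨ z = -1) {α : Type} [Fintype α]
    [DecidableEq α] (σ τ : Equiv.Perm α) : chi z (σ * τ) = chi z σ * chi z τ := by
  unfold chi
  rw [Equiv.Perm.sign_mul]
  rcases Int.units_eq_one_or (Equiv.Perm.sign σ) with h | h <;>
    rcases Int.units_eq_one_or (Equiv.Perm.sign τ) with h' | h' <;>
      rcases hz with rfl | rfl <;> simp [h, h']

lemma chi_conj {K : Type} [Field K] (z : K) {α : Type} [Fintype α]
    [DecidableEq α] (σ τ : Equiv.Perm α) : chi z (τ * σ * τ⁻¹) = chi z σ := by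
  unfold chi
  rw [Equiv.Perm.sign_mul, Equiv.Perm.sign_mul, Equiv.Perm.sign_inv,
    mul_comm (Equiv.Perm.sign τ), mul_assoc, Int.units_mul_self, mul_one]

lemma chi_swap {K : Type} [Field K] (z : K) {α : Type} [Fintype α]
    [DecidableEq α] (i j : α) (h : i ≠ j) : chi z (Equiv.swap i j) = z := by
  unfold chi
  rw [Equiv.Perm.sign_swap h, if_neg (by decide)]

section lin

variable {K : Type} [Field K] {I : Type}

lemma ac_add (o : I → Bool) {m : ℕ} (σ : Equiv.Perm (Fin m)) (f g : (Fin m → I) → K) :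
    ac o σ (f + g) = ac o σ f + ac o σ g := by
  funext w
  exact mul_add _ _ _

lemma ac_smul (o : I → Bool) {m : ℕ} (σ : Equiv.Perm (Fin m)) (c : K) (f : (Fin m → I) → K) :
    ac o σ (c • f) = c • ac o σ f := by
  funext w
  show kap o σ w * (c * f fun i => w (σ i)) = c * (kap o σ w * f fun i => w (σ i))
  ring

lemma ac_sum {ι : Type*} (o : I → Bool) {m : ℕ} (σ : Equiv.Perm (Fin m)) (s : Finset ι)
    (f : ι → (Fin m → I) → K) : ac o σ (∑ i ∈ s, f i) = ∑ i ∈ s, ac o σ (f i) := by
  classical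
  induction s using Finset.induction_on with
  | empty =>
    rw [Finset.sum_empty, Finset.sum_empty]
    funext w
    exact mul_zero _
  | insert i s hi ih => rw [Finset.sum_insert hi, Finset.sum_insert hi, ac_add, ih]

lemma pr_add [Fintype I] (F : OForm K I) {m : ℕ} (f f' g : (Fin m → I) → K) :
    pr F (f + f') g = pr F f g + pr F f' g := by
  unfold pr
  rw [← Finset.sum_add_distrib]
  refine Finset.sum_congr rfl fun w _ => ?_
  rw [Pi.add_apply]
  ring

lemma pr_smul [Fintype I] (F : OForm K I) {m : ℕ} (c : K) (f g : (Fin m → I) → K) :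
    pr F (c • f) g = c * pr F f g := by
  unfold pr
  rw [Finset.mul_sum]
  refine Finset.sum_congr rfl fun w _ => ?_
  rw [Pi.smul_apply, smul_eq_mul]
  ring

lemma pr_sum [Fintype I] {ι : Type*} (F : OForm K I) {m : ℕ} (s : Finset ι)
    (f : ι → (Fin m → I) → K) (g : (Fin m → I) → K) :
    pr F (∑ i ∈ s, f i) g = ∑ i ∈ s, pr F (f i) g := by
  classical
  induction s using Finset.induction_on with
  | empty =>
    rw [Finset.sum_empty, Finset.sum_empty]
    unfold pr
    refine Finset.sum_eq_zero fun w _ => ?_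
    rw [Pi.zero_apply]
    ring
  | insert i s hi ih => rw [Finset.sum_insert hi, Finset.sum_insert hi, pr_add, ih]

end lin

/-- the case of the first places -/
theorem km1 (hACT : T_ACT) (hAFA : T_AFA) (hPRF : T_PRF) (hTYB : T_TYB) (hPCN : T_PCN) (hPTC : T_PTC)
    (hSPX : T_SPX)
    (K : Type) [Field K] [CharZero K] (J E : Type) [Fintype J] [DecidableEq J] [Fintype E] [DecidableEq E]
    (F : OForm K J) (G : OForm K E) (A : ℕ → Submodule ℚ (List (J ⊕ E) → K)) (hM : MCal F G A) (z : K)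
    (n : ℕ) (hz : z = 1 ∨ z = -1)
    (hyp : ∀ t ∈ AR A n, ∑ u : List.Vector J n, sgw K F.o u.1 *
      (op F.η n t * Xp z F.o (1 : Matrix J J K) n) u u = 0)
    (k a : ℕ) (x y : (Fin (2 * k) → J ⊕ E) → K) (hx : x ∈ Af A k) (hy : rvf y ∈ Af A k) (hxt : Tyf a x)
    (hyt : Tyf a y) (ha : a ≤ 2 * k) (hna : n ≤ a) (L : Finset (Fin (2 * k)))
    (hL : ∀ i : Fin (2 * k), i ∈ L ↔ i.1 < n) :
    ∑ σ ∈ HL L, chi z σ * pr (osum F G) (ac (osum F G).o σ x) y = 0 := by
  set o := (osum F G).o with ho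
  have hstab : ∀ σ ∈ HL L, ∀ i : Fin (2 * k), (σ i).1 < a ↔ i.1 < a := by
    intro σ hσ i
    by_cases hi : i ∈ L
    · have h1 : σ i ∈ L := by
        by_contra h1
        have h2 := mem_HL.1 hσ _ h1
        exact h1 (by rwa [σ.injective h2])
      rw [hL] at hi h1
      constructor <;> intro _ <;> omega
    · rw [mem_HL.1 hσ i hi]
  set X : (Fin (2 * k) → J ⊕ E) → K := ∑ σ ∈ HL L, chi z σ • ac o σ x with hXdef
  have hXA : X ∈ Af A k := by
    refine Submodule.sum_mem _ fun σ _ => ?_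
    have h1 := (hAFA K (J ⊕ E) o _ _ A hM.calculus).2 k σ x hx
    have h2 : chi z σ = 1 ∨ chi z σ = (-1 : K) := by
      unfold chi
      split_ifs
      · exact Or.inl rfl
      · exact hz
    rcases h2 with h2 | h2
    · rw [h2, one_smul]
      exact h1
    · rw [h2, neg_smul, one_smul]
      exact (Af A k).neg_mem h1
  have hXt : Tyf a X := by
    intro w hw i
    by_contra hcon
    apply hw
    show (∑ σ ∈ HL L, chi z σ • ac o σ x) w = 0
    rw [Finset.sum_apply]
    refine Finset.sum_eq_zero fun σ hσ => ?_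
    have h1 := (hTYB K J E (2 * k) a ha).2.1 o σ x (hstab σ hσ) hxt
    have h2 : ac o σ x w = 0 := by
      by_contra h2
      exact hcon (h1 w h2 i)
    rw [Pi.smul_apply, h2, smul_zero]
  have hs : ∀ (j : ℕ) (h : j + 1 < 2 * k), j + 2 ≤ n → ∀ w,
      ac o (Equiv.swap ⟨j, Nat.lt_of_succ_lt h⟩ ⟨j + 1, h⟩) X w = z * X w := by
    intro j h hj w
    set s : Equiv.Perm (Fin (2 * k)) := Equiv.swap ⟨j, Nat.lt_of_succ_lt h⟩ ⟨j + 1, h⟩ with hsdef
    have hsL : s ∈ HL L := by
      rw [mem_HL]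
      intro i hi
      refine Equiv.swap_apply_of_ne_of_ne ?_ ?_
      · rintro rfl
        exact hi ((hL _).2 (by show j < n; omega))
      · rintro rfl
        exact hi ((hL _).2 (by show j + 1 < n; omega))
    have hmul : ∀ σ ∈ HL L, s * σ ∈ HL L := by
      intro σ hσ
      rw [mem_HL] at hσ hsL ⊢
      intro i hi
      rw [Equiv.Perm.mul_apply, hσ i hi, hsL i hi]
    have hchi : chi z s = z := chi_swap z _ _ (by
      intro h'
      have := congrArg Fin.val h'
      simp at this)
    have hss : s * s = 1 := Equiv.swap_mul_self _ _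
    have h1 : ac o s X = z • X := by
      rw [hXdef, ac_sum, Finset.smul_sum]
      refine Finset.sum_bij (fun σ _ => s * σ) (fun σ hσ => hmul σ hσ)
        (fun σ _ τ _ h' => mul_left_cancel h') (fun σ hσ => ⟨s * σ, hmul σ hσ, by
          rw [← mul_assoc, hss, one_mul]⟩) (fun σ hσ => ?_)
      rw [ac_smul, ← (hACT K (J ⊕ E) o (2 * k)).1, chi_mul z hz, hchi, smul_smul, ← mul_assoc]
      have hzz : z * z = 1 := by rcases hz with rfl | rfl <;> ring
      rw [hzz, one_mul]
    rw [h1]
    rfl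
  have h0 := km0 hACT hPRF hTYB hPCN hPTC hSPX K J E F G A hM z n hz hyp k a X y hXA hy hXt hyt ha hna hs
  rw [hXdef, pr_sum] at h0
  rw [← h0]
  exact Finset.sum_congr rfl fun σ _ => (pr_smul _ _ _ _).symm

theorem pf_KMX (hKAP : T_KAP) (hACT : T_ACT) (hAFA : T_AFA) (hPRF : T_PRF) (hTYB : T_TYB) (hPCN : T_PCN)
    (hPTC : T_PTC) (hSPX : T_SPX) : T_KMX := by
  intro K _ _ J E _ _ _ _ F G A hM z b hz hyp k a x y hx hy hxt hyt ha L hLc hLa
  set o := (osum F G).o with ho
  have hna : b + 1 ≤ a := by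
    rw [← hLc]
    have h1 : L.card ≤ ((Finset.univ : Finset (Fin (2 * k))).filter fun i => i.1 < a).card :=
      Finset.card_le_card fun i hi => by simp [hLa i hi]
    have h2 : ((Finset.univ : Finset (Fin (2 * k))).filter fun i => i.1 < a).card ≤ a := by
      have h3 := Finset.card_le_card_of_injOn (s := (Finset.univ : Finset (Fin (2 * k))).filter
        fun i => i.1 < a) (t := Finset.range a) (fun i => i.1) (fun i hi => by
          simpa using hi) (fun i _ j _ h => Fin.ext h)
      rwa [Finset.card_range] at h3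
    omega
  obtain ⟨τ, hτ1, hτ2⟩ := exists_move L hLc hLa hna ha
  set L0 : Finset (Fin (2 * k)) := Finset.univ.filter fun i => i.1 < b + 1 with hL0
  have hL0m : ∀ i : Fin (2 * k), i ∈ L0 ↔ i.1 < b + 1 := by
    intro i
    simp [hL0]
  have hac : ∀ (σ σ' : Equiv.Perm (Fin (2 * k))) (f : (Fin (2 * k) → J ⊕ E) → K),
      ac o (σ * σ') f = ac o σ (ac o σ' f) := (hACT K (J ⊕ E) o (2 * k)).1
  have hone : ∀ f : (Fin (2 * k) → J ⊕ E) → K, ac o 1 f = f := (hACT K (J ⊕ E) o (2 * k)).2.1
  have hpr : ∀ (σ : Equiv.Perm (Fin (2 * k))) (f g : (Fin (2 * k) → J ⊕ E) → K),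
      pr (osum F G) (ac o σ f) g = pr (osum F G) f (ac o σ⁻¹ g) :=
    (hPRF K (J ⊕ E) (osum F G) (2 * k)).2.1
  have hAf := (hAFA K (J ⊕ E) o _ _ A hM.calculus).2 k
  have h1 := km1 hACT hAFA hPRF hTYB hPCN hPTC hSPX K J E F G A hM z (b + 1) hz hyp k a (ac o τ x) (ac o τ y)
    (hAf τ x hx) (by
      rw [(hPRF K (J ⊕ E) (osum F G) (2 * k)).2.2.1 τ y]
      exact hAf _ _ hy)
    ((hTYB K J E (2 * k) a ha).2.1 o τ x hτ2 hxt) ((hTYB K J E (2 * k) a ha).2.1 o τ y hτ2 hyt) ha hna L0 hL0m
  rw [← h1]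
  refine Finset.sum_bij (fun σ _ => τ * σ * τ⁻¹) ?_ ?_ ?_ ?_
  · intro σ hσ
    rw [mem_HL] at hσ ⊢
    intro i hi
    rw [hL0m] at hi
    have e : τ (τ⁻¹ i) = i := τ.apply_symm_apply i
    have h2 : τ⁻¹ i ∉ L := by
      rw [hτ1, e]
      exact hi
    rw [Equiv.Perm.mul_apply, Equiv.Perm.mul_apply, hσ _ h2, e]
  · intro σ _ σ' _ h
    exact mul_left_cancel (mul_right_cancel h)
  · intro σ hσ
    refine ⟨τ⁻¹ * σ * τ, ?_, by group⟩
    rw [mem_HL] at hσ ⊢
    intro i hi
    have e : τ⁻¹ (τ i) = i := τ.symm_apply_apply i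
    have h2 : τ i ∉ L0 := by
      rw [hL0m, ← hτ1]
      exact hi
    rw [Equiv.Perm.mul_apply, Equiv.Perm.mul_apply, hσ _ h2, e]
  · intro σ _
    rw [chi_conj]
    congr 1
    rw [← hac, inv_mul_cancel_right, hac, hpr τ, ← hac, inv_mul_cancel, hone]

end Pool.Agent.H38.FTM
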